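import Pool.Agent.Helper72.EP.Spec2

/-! Module CONS of MP_45fa85_co: the consistent case. -/

namespace ErdPos

open Finset

theorem st_CONS (hTSYS : ST_TSYS) (hPROJ : ST_PROJ) (hLIFT : ST_LIFT) (hTEP : ST_TEP)
    (hHU3 : ST_HU3) (hHUL : ST_HUL) : ST_CONS := by
  classical
  obtain ⟨h, hh⟩ := hTEP
  refine ⟨h, fun V _ _ E X G γ inc 𝒟 C hS hC k => ?_⟩
  obtain ⟨y, hy⟩ := hTSYS V E X G γ inc 𝒟 C hS hC
  rcases hh V E X inc 𝒟 _ _ _ y hS hy k with ⟨P, S, hP, hPS, hcong⟩ | ⟨Z, hZ, hZh⟩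
  · left
    have hl : ∀ D : Finset E, ∃ S' : Finset V, D ∈ P →
        FA G γ inc 𝒟 S' ∧ S' ⊆ C ∧
        (∀ x ∈ S', TVx G (FA G γ inc 𝒟) C x → x ∈ S D) ∧
        (∀ x ∈ S', ¬ TVx G (FA G γ inc 𝒟) C x → Rob G (FA G γ inc 𝒟) C x ∧
          ∃ A, Hul G (FA G γ inc 𝒟) C A ∧ x ∈ A ∧ Zt G C A ⊆ S D) := by
      intro D
      by_cases hD : D ∈ P
      · obtain ⟨hD𝒟, T', hDC⟩ := hPS D hD
        obtain ⟨S1, T1, h1, h2, h3, h4, h5⟩ := hLIFT V E X G γ inc 𝒟 C hS hC D hD𝒟 _ _ hDC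
        exact ⟨S1, fun _ => ⟨⟨T1, h1, Or.inr ⟨D, hD𝒟, h3⟩⟩, h2, h4, h5⟩⟩
      · exact ⟨∅, fun h => absurd h hD⟩
    choose L hL using hl
    let e : Fin k ≃ P := (Fintype.equivFinOfCardEq (by rw [Fintype.card_coe, hP])).symm
    refine ⟨fun i => L (e i).1, fun i => ⟨(hL _ (e i).2).1, (hL _ (e i).2).2.1⟩, fun v => ?_⟩
    -- a vertex `w` such that `v ∈ L D → w ∈ S D`
    have key : ∃ w : V, ∀ D ∈ P, v ∈ L D → w ∈ S D := by
      by_cases hv : TVx G (FA G γ inc 𝒟) C v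
      · exact ⟨v, fun D hD hvD => (hL D hD).2.2.1 v hvD hv⟩
      · by_cases hex : ∃ D ∈ P, v ∈ L D
        · obtain ⟨D0, hD0, hvD0⟩ := hex
          obtain ⟨hr, A, hA, hvA, _⟩ := (hL D0 hD0).2.2.2 v hvD0 hv
          have hcard := ((hHUL V G _ C hC.ctx).2 A hA).2.2.2.2.1
          have hne : (Zt G C A).Nonempty := by
            rw [← Finset.card_pos]; omega
          obtain ⟨w, hw⟩ := hne
          refine ⟨w, fun D hD hvD => ?_⟩
          obtain ⟨_, A', hA', hvA', hZ'⟩ := (hL D hD).2.2.2 v hvD hv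
          have hAA : A = A' := by
            by_contra hne
            exact hv ⟨A, hA, (hHU3 V G _ C hC.ctx).1 A A' hA hA' hne v hr hvA hvA'⟩
          subst hAA
          exact hZ' hw
        · exact ⟨v, fun D hD hvD => absurd ⟨D, hD, hvD⟩ hex⟩
    obtain ⟨w, hw⟩ := key
    refine le_trans ?_ (hcong w)
    refine Finset.card_le_card_of_injOn (fun i => (e i).1) ?_ ?_
    · intro i hi
      simp only [coe_filter, Set.mem_ofPred_eq, mem_univ, true_and] at hi ⊢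
      exact ⟨(e i).2, hw _ (e i).2 hi⟩
    · intro i _ j _ hij
      exact e.injective (Subtype.ext hij)
  · right
    refine ⟨Z, hZ, fun M hM hMC => ?_⟩
    obtain ⟨T, hT, hA⟩ := hM
    have hEs := hC.nowild M T hT hMC
    rcases hA with hA | ⟨D, hD, hInd⟩
    · exact absurd hEs hA
    · obtain ⟨S', T', hSM, hDC⟩ := hPROJ V E X G γ inc 𝒟 C hS hC D hD M T hT hMC hInd
      obtain ⟨v, hv, hvZ⟩ := hZh D hD S' T' hDC
      exact ⟨v, hSM hv, hvZ⟩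

end ErdPos
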