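import Pool.Agent.Helper72.EP.Spec2

/-! Module DEC of MP_45fa85_co: decomposition into hull paths. -/

namespace ErdPos

open Finset

section
variable {V : Type} [DecidableEq V]

lemma dec_path [Fintype V] (hPA : ST_PA) (hPEEL : ST_PEEL)
    {G : SimpleGraph V} {F : Finset V → Prop} {C : Finset V} (hC : Ctx G F C)
    {M : Type} [AddCommMonoid M] (φ : Sym2 V → M) (P : AddSubmonoid M)
    (hP : ∀ A u v S T, HP G F C A u v S T → ∑ e ∈ T, φ e ∈ P) (n : ℕ) :
    ∀ (s t : V) (S : Finset V) (T : Finset (Sym2 V)), T.card = n → S ⊆ C →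
    TVx G F C s → TVx G F C t → Pth G s t S T → ∑ e ∈ T, φ e ∈ P := by
  induction n using Nat.strong_induction_on with
  | _ n ih =>
    intro s t S T hT hSC hs ht hp
    have hPG := hPA V G
    by_cases hst : s = t
    · subst hst
      obtain ⟨rfl, rfl⟩ := hPG.triv _ _ _ hp
      rw [Finset.sum_empty]
      exact P.zero_mem
    · obtain ⟨A, s', S1, T1, S2, T2, hHP, hq, hqA, h12, hSS, hdis, hTT, hs', hsS⟩ :=
        hPEEL V G F C hC s t S T hp hSC hst hs ht
      have hT1 : 1 ≤ T1.card := by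
        have h1 := hPG.card _ _ _ _ hHP.2.2.2.1
        have h2 := hPG.ends _ _ _ _ hHP.2.2.2.1
        have h3 : ({s, s'} : Finset V) ⊆ S1 := by
          intro x hx
          rw [mem_insert, mem_singleton] at hx
          rcases hx with rfl | rfl
          · exact h2.1
          · exact h2.2
        have h4 := Finset.card_le_card h3
        rw [Finset.card_pair hHP.2.2.1] at h4
        omega
      have hT2 : T2.card < n := by
        rw [← hT, ← hTT, Finset.card_union_of_disjoint hdis]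
        omega
      have hS2 : S2 ⊆ S := by rw [← hSS]; exact subset_union_right
      have h2 := ih T2.card hT2 s' t S2 T2 rfl (hS2.trans hSC) hs' ht hq
      rw [← hTT, Finset.sum_union hdis]
      exact P.add_mem (hP _ _ _ _ _ hHP) h2

end

theorem st_DEC (hPA : ST_PA) (hCA : ST_CA) (hHUL : ST_HUL) (hPEEL : ST_PEEL)
    (hCPEEL : ST_CPEEL) : ST_DEC := by
  intro V _ _ G F C hC M _ φ P hP
  have h1 : ∀ s t S T, Pth G s t S T → S ⊆ C → TVx G F C s → TVx G F C t →
      ∑ e ∈ T, φ e ∈ P := fun s t S T hp hSC hs ht =>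
    dec_path hPA hPEEL hC φ P hP _ s t S T rfl hSC hs ht hp
  refine ⟨h1, fun S T hGC => ?_⟩
  have hCG := hCA V G
  obtain ⟨hcyc, hSC, hrob, hnoh⟩ := hGC
  obtain ⟨hc3, hcT⟩ := hCG.card _ _ hcyc
  have hTne : T.Nonempty := by
    rw [← Finset.card_pos]; omega
  obtain ⟨e, he⟩ := hTne
  obtain ⟨a, haS, b, hbS, hadj, rfl⟩ := hCG.tmem _ _ hcyc e he
  have hul := ((hHUL V G _ C hC).1 a b (hrob a haS) (hrob b hbS) hadj).1
  obtain ⟨z, hzS, hzA⟩ := Finset.not_subset.1 (hnoh _ hul)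
  obtain ⟨u, v, S1, T1, S2, T2, hHP, heT1, hq, hqA, hzS2, h12, hSS, hdis, hTT⟩ :=
    hCPEEL V G _ C hC S T a b z hcyc hSC hrob he hzS hzA
  have huTV : TVx G F C u := ⟨_, hul, by rw [hHP.2.1]; simp⟩
  have hvTV : TVx G F C v := ⟨_, hul, by rw [hHP.2.1]; simp⟩
  have hS2 : S2 ⊆ S := by rw [← hSS]; exact subset_union_right
  rw [← hTT, Finset.sum_union hdis]
  exact P.add_mem (hP _ _ _ _ _ hHP) (h1 _ _ _ _ hq (hS2.trans hSC) huTV hvTV)

end ErdPos
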