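import Pool.Agent.Helper72.EP.Spec2

/-! Module LIFT of MP_45fa85_co: `D`-cycles of the torso give cycles of `C`. -/

namespace ErdPos

open Finset

section
variable {V : Type} [DecidableEq V] {E X : Type}

lemma lift_sym2_of_pair {u v u' v' : V} (h : ({u, v} : Finset V) = {u', v'}) :
    s(u, v) = s(u', v') := by
  have h1 : u ∈ ({u', v'} : Finset V) := h ▸ (by simp)
  have h2 : v ∈ ({u', v'} : Finset V) := h ▸ (by simp)
  have h3 : u' ∈ ({u, v} : Finset V) := h ▸ (by simp)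
  have h4 : v' ∈ ({u, v} : Finset V) := h ▸ (by simp)
  simp only [mem_insert, mem_singleton] at h1 h2 h3 h4
  rcases h1 with rfl | rfl
  · rcases h4 with h4 | h4
    · subst h4
      rcases h2 with rfl | rfl <;> rfl
    · subst h4; rfl
  · rcases h3 with h3 | h3
    · subst h3
      rcases h2 with rfl | rfl <;> rfl
    · subst h3; exact Sym2.eq_swap

lemma lift_pair_of_sym2 {u v u' v' : V} (h : s(u, v) = s(u', v')) :
    ({u, v} : Finset V) = {u', v'} := by
  rw [Sym2.eq_iff] at h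
  rcases h with ⟨rfl, rfl⟩ | ⟨rfl, rfl⟩
  · rfl
  · exact Finset.pair_comm _ _

/-- the sets of carried labels are disjoint -/
lemma lift_car_disj {G : SimpleGraph V} {γ : Sym2 V → E →₀ ℤ} {inc : E → X → Prop}
    {𝒟 : Set (Finset E)} {C : Finset V} (hC : Cons G γ inc 𝒟 C) {h h' : Sym2 V} {f : E}
    (hf : f ∈ carH G (FA G γ inc 𝒟) C γ h) (hf' : f ∈ carH G (FA G γ inc 𝒟) C γ h') : h = h' := by
  obtain ⟨A, u, v, S, T, h1, h2, h3⟩ := hf
  obtain ⟨A', u', v', S', T', h1', h2', h3'⟩ := hf'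
  have hA := hC.disj _ _ _ _ _ _ _ _ _ _ h1 h1' f h3 h3'
  subst hA
  rw [h2, h2']
  apply lift_sym2_of_pair
  rw [← h1.2.1, ← h1'.2.1]

lemma lift_vl_union {γ : Sym2 V → E →₀ ℤ} {T T' : Finset (Sym2 V)} (h : Disjoint T T') (f : E) :
    vl γ (T ∪ T') f = vl γ T f + vl γ T' f := by
  unfold vl
  rw [Finset.sum_union h]
  rfl

open Classical in
/-- the path version -/
lemma lift_path [Fintype V] (hPA : ST_PA) (hROB : ST_ROB) (hHUL : ST_HUL) (hHU3 : ST_HU3)
    {G : SimpleGraph V} {γ : Sym2 V → E →₀ ℤ} {inc : E → X → Prop}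
    {𝒟 : Set (Finset E)} {C : Finset V} (hC : Cons G γ inc 𝒟 C) (D : Finset E) (n : ℕ) :
    ∀ (a b : V) (S' : Finset V) (T' : Finset (Sym2 V)), T'.card = n →
    TVx G (FA G γ inc 𝒟) C a → Pth (TDg G (FA G γ inc 𝒟) C γ D) a b S' T' →
    ∃ S T, Pth G a b S T ∧ S ⊆ C ∧ S' ⊆ S ∧
      (∀ f, vl γ T f = if f ∈ D ∧ ∃ h ∈ T', f ∈ carH G (FA G γ inc 𝒟) C γ h then 1 else 0) ∧
      (∀ x ∈ S, TVx G (FA G γ inc 𝒟) C x → x ∈ S') ∧
      (∀ x ∈ S, ¬ TVx G (FA G γ inc 𝒟) C x → Rob G (FA G γ inc 𝒟) C x ∧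
        ∃ A u v, Hul G (FA G γ inc 𝒟) C A ∧ x ∈ A ∧ Zt G C A = {u, v} ∧ s(u, v) ∈ T') := by
  induction n with
  | zero =>
    intro a b S' T' hT ha hp
    have hPG := hPA V G
    have hPT := hPA V (TDg G (FA G γ inc 𝒟) C γ D)
    have hab : a = b := by
      by_contra hab
      obtain ⟨x, S1, T1, _, _, _, _, h5, _⟩ := hPT.step _ _ _ _ hp hab
      rw [Finset.card_eq_zero] at hT
      rw [hT] at h5
      exact absurd h5.symm (Finset.insert_ne_empty _ _)
    subst hab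
    obtain ⟨rfl, rfl⟩ := hPT.triv _ _ _ hp
    have haC : a ∈ C := (hHU3 V G _ C hC.ctx).2.2 a ha |>.1
    refine ⟨{a}, ∅, hPG.refl a, by simpa using haC, subset_rfl, ?_, fun x hx _ => hx, ?_⟩
    · intro f
      simp [vl]
    · intro x hx hn
      rw [mem_singleton] at hx
      subst hx
      exact absurd ha hn
  | succ n ih =>
    intro a b S' T' hT ha hp
    have hPG := hPA V G
    have hPT := hPA V (TDg G (FA G γ inc 𝒟) C γ D)
    have hab : a ≠ b := by
      rintro rfl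
      obtain ⟨rfl, rfl⟩ := hPT.triv _ _ _ hp
      simp at hT
    obtain ⟨x, S2', T2', hadj, hp2, haS, rfl, rfl, hnot⟩ := hPT.step _ _ _ _ hp hab
    rw [Finset.card_insert_of_notMem hnot] at hT
    obtain ⟨A, S1, T1, hHP, hval⟩ := hadj
    have hHul := hHP.1
    have hZt := hHP.2.1
    have hax := hHP.2.2.1
    have hxTV : TVx G (FA G γ inc 𝒟) C x := ⟨A, hHul, by rw [hZt]; simp⟩
    obtain ⟨S2, T2, hq, hqC, hqS, hqv, hq1, hq2⟩ := ih x b S2' T2' (by omega) hxTV hp2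
    have hHA := (hHUL V G _ C hC.ctx).2 A hHul
    have hS1C : S1 ⊆ C := hHP.2.2.2.2.trans hHA.1
    have hrob : ∀ y ∈ S1, Rob G (FA G γ inc 𝒟) C y :=
      (hROB V G _ C hC.ctx).1 a x S1 T1 hHP.2.2.2.1 hS1C hax
        (hHA.2.2.2.2.2.2.1 a (by rw [hZt]; simp)) (hHA.2.2.2.2.2.2.1 x (by rw [hZt]; simp))
    have hH3 := hHU3 V G _ C hC.ctx
    -- TV vertices in S1
    have hTV1 : ∀ y ∈ S1, TVx G (FA G γ inc 𝒟) C y → y = a ∨ y = x := by
      intro y hy hyT
      have := hH3.2.1 A hHul y (hHP.2.2.2.2 hy) hyT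
      rw [hZt] at this
      simpa using this
    have hinter : S1 ∩ S2 ⊆ {x} := by
      intro y hy
      rw [mem_inter] at hy
      rw [mem_singleton]
      by_cases hyT : TVx G (FA G γ inc 𝒟) C y
      · rcases hTV1 y hy.1 hyT with h | h
        · exact absurd (h ▸ hq1 y hy.2 hyT) haS
        · exact h
      · exfalso
        obtain ⟨_, A', u', v', hA', hyA', hZ', hs'⟩ := hq2 y hy.2 hyT
        have hne : A ≠ A' := by
          rintro rfl
          apply hnot
          rw [hZt] at hZ'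
          rw [lift_sym2_of_pair hZ']
          exact hs'
        exact hyT ⟨A, hHul, hH3.1 A A' hHul hA' hne y (hrob y hy.1) (hHP.2.2.2.2 hy.1) hyA'⟩
    obtain ⟨hcat, hdis⟩ := hPG.concat a x b S1 T1 S2 T2 hHP.2.2.2.1 hq hinter
    refine ⟨S1 ∪ S2, T1 ∪ T2, hcat, union_subset hS1C hqC, ?_, ?_, ?_, ?_⟩
    · exact insert_subset (mem_union_left _ (hPG.ends _ _ _ _ hHP.2.2.2.1).1)
        (hqS.trans subset_union_right)
    · intro f
      rw [lift_vl_union hdis, hval f, hqv f]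
      by_cases hfD : f ∈ D
      · by_cases hf1 : f ∈ carH G (FA G γ inc 𝒟) C γ s(a, x)
        · have hf2 : ¬ ∃ h ∈ T2', f ∈ carH G (FA G γ inc 𝒟) C γ h := by
            rintro ⟨h, hh, hfh⟩
            rw [lift_car_disj hC hfh hf1] at hh
            exact hnot hh
          have hf3 : ∃ h ∈ insert s(a, x) T2', f ∈ carH G (FA G γ inc 𝒟) C γ h :=
            ⟨_, mem_insert_self _ _, hf1⟩
          rw [if_pos ⟨hfD, hf1⟩, if_neg (fun h => hf2 h.2), if_pos ⟨hfD, hf3⟩]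
          norm_num
        · rw [if_neg (fun h => hf1 h.2), zero_add]
          by_cases hf2 : ∃ h ∈ T2', f ∈ carH G (FA G γ inc 𝒟) C γ h
          · obtain ⟨h, hh, hfh⟩ := hf2
            rw [if_pos ⟨hfD, h, hh, hfh⟩, if_pos ⟨hfD, h, mem_insert_of_mem hh, hfh⟩]
          · rw [if_neg (fun h => hf2 h.2), if_neg]
            rintro ⟨_, h, hh, hfh⟩
            rcases mem_insert.1 hh with rfl | hh
            · exact hf1 hfh
            · exact hf2 ⟨h, hh, hfh⟩
      · rw [if_neg (fun h => hfD h.1), if_neg (fun h => hfD h.1), if_neg (fun h => hfD h.1)]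
        norm_num
    · intro y hy hyT
      rcases mem_union.1 hy with hy | hy
      · rcases hTV1 y hy hyT with rfl | rfl
        · exact mem_insert_self _ _
        · exact mem_insert_of_mem (hPT.ends _ _ _ _ hp2).1
      · exact mem_insert_of_mem (hq1 y hy hyT)
    · intro y hy hyT
      rcases mem_union.1 hy with hy | hy
      · exact ⟨hrob y hy, A, a, x, hHul, hHP.2.2.2.2 hy, hZt, mem_insert_self _ _⟩
      · obtain ⟨h1, A', u', v', h2, h3, h4, h5⟩ := hq2 y hy hyT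
        exact ⟨h1, A', u', v', h2, h3, h4, mem_insert_of_mem h5⟩

end

theorem st_LIFT (hPA : ST_PA) (hCA : ST_CA) (hROB : ST_ROB) (hHUL : ST_HUL) (hHU3 : ST_HU3) :
    ST_LIFT := by
  classical
  intro V _ _ E X G γ inc 𝒟 C hS hC D hD S' T' hDC
  have hPG := hPA V G
  have hCG := hCA V G
  have hPT := hPA V (TDg G (FA G γ inc 𝒟) C γ D)
  have hCT := hCA V (TDg G (FA G γ inc 𝒟) C γ D)
  obtain ⟨hcyc, hcov⟩ := hDC
  obtain ⟨hc3, hcT⟩ := hCT.card _ _ hcyc
  have hTne : T'.Nonempty := by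
    rw [← Finset.card_pos]; omega
  obtain ⟨e, he⟩ := hTne
  obtain ⟨a, haS, b, hbS, hadj, rfl⟩ := hCT.tmem _ _ hcyc e he
  obtain ⟨hab, _, _, _, hp⟩ := hCT.edge a b S' T' hcyc he
  obtain ⟨A, S1, T1, hHP, hval⟩ := hadj
  have hHul := hHP.1
  have hZt := hHP.2.1
  have haTV : TVx G (FA G γ inc 𝒟) C a := ⟨A, hHul, by rw [hZt]; simp⟩
  obtain ⟨S2, T2, hq, hqC, hqS, hqv, hq1, hq2⟩ :=
    lift_path hPA hROB hHUL hHU3 hC D _ a b S' (T'.erase s(a, b)) rfl haTV hp
  have hHA := (hHUL V G _ C hC.ctx).2 A hHul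
  have hS1C : S1 ⊆ C := hHP.2.2.2.2.trans hHA.1
  have hrob : ∀ y ∈ S1, Rob G (FA G γ inc 𝒟) C y :=
    (hROB V G _ C hC.ctx).1 a b S1 T1 hHP.2.2.2.1 hS1C hab
      (hHA.2.2.2.2.2.2.1 a (by rw [hZt]; simp)) (hHA.2.2.2.2.2.2.1 b (by rw [hZt]; simp))
  have hH3 := hHU3 V G _ C hC.ctx
  have hTV1 : ∀ y ∈ S1, TVx G (FA G γ inc 𝒟) C y → y = a ∨ y = b := by
    intro y hy hyT
    have := hH3.2.1 A hHul y (hHP.2.2.2.2 hy) hyT
    rw [hZt] at this
    simpa using this
  have hinter : S1 ∩ S2 ⊆ {a, b} := by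
    intro y hy
    rw [mem_inter] at hy
    rw [mem_insert, mem_singleton]
    by_cases hyT : TVx G (FA G γ inc 𝒟) C y
    · exact hTV1 y hy.1 hyT
    · exfalso
      obtain ⟨_, A', u', v', hA', hyA', hZ', hs'⟩ := hq2 y hy.2 hyT
      have hne : A ≠ A' := by
        rintro rfl
        rw [mem_erase] at hs'
        apply hs'.1
        rw [hZt] at hZ'
        exact (lift_sym2_of_pair hZ').symm
      exact hyT ⟨A, hHul, hH3.1 A A' hHul hA' hne y (hrob y hy.1) (hHP.2.2.2.2 hy.1) hyA'⟩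
  have hTT : T1 ≠ T2 := by
    rintro rfl
    have h1 : T1 ⊆ {s(a, b)} := by
      intro e he
      rw [mem_singleton]
      obtain ⟨x, hx, y, hy, hxy, rfl⟩ := hPG.tmem _ _ _ _ hHP.2.2.2.1 e he
      obtain ⟨x', hx', y', hy', hxy', he'⟩ := hPG.tmem _ _ _ _ hq s(x, y) he
      have hx2 : x ∈ S2 ∧ y ∈ S2 := by
        rw [Sym2.eq_iff] at he'
        rcases he' with ⟨rfl, rfl⟩ | ⟨rfl, rfl⟩
        · exact ⟨hx', hy'⟩
        · exact ⟨hy', hx'⟩
      have h1 := hinter (mem_inter.2 ⟨hx, hx2.1⟩)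
      have h2 := hinter (mem_inter.2 ⟨hy, hx2.2⟩)
      have hxyne := hxy.ne
      rw [mem_insert, mem_singleton] at h1 h2
      rcases h1 with rfl | rfl <;> rcases h2 with rfl | rfl
      · exact absurd rfl hxyne
      · rfl
      · exact Sym2.eq_swap
      · exact absurd rfl hxyne
    have h2 := Finset.card_le_card h1
    rw [Finset.card_singleton] at h2
    have h3 := hPG.card _ _ _ _ hq
    have h4 := Finset.card_le_card hqS
    omega
  obtain ⟨hcy, hdis⟩ := hCG.mk2 a b S1 T1 S2 T2 hHP.2.2.2.1 hq hab hinter hTT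
  have hvl : ∀ f, vl γ (T1 ∪ T2) f = if f ∈ D then 1 else 0 := by
    intro f
    rw [lift_vl_union hdis, hval f, hqv f]
    by_cases hfD : f ∈ D
    · obtain ⟨h, hh, hfh⟩ := hcov f hfD
      rw [if_pos hfD]
      by_cases hf1 : f ∈ carH G (FA G γ inc 𝒟) C γ s(a, b)
      · have hf2 : ¬ ∃ h ∈ T'.erase s(a, b), f ∈ carH G (FA G γ inc 𝒟) C γ h := by
          rintro ⟨h, hh, hfh⟩
          rw [lift_car_disj hC hfh hf1] at hh
          exact (mem_erase.1 hh).1 rfl
        rw [if_pos ⟨hfD, hf1⟩, if_neg (fun h => hf2 h.2)]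
        norm_num
      · have hne : h ≠ s(a, b) := by
          rintro rfl
          exact hf1 hfh
        rw [if_neg (fun h => hf1 h.2), if_pos ⟨hfD, h, mem_erase.2 ⟨hne, hh⟩, hfh⟩]
        norm_num
    · rw [if_neg (fun h => hfD h.1), if_neg (fun h => hfD h.1), if_neg hfD]
      norm_num
  refine ⟨S1 ∪ S2, T1 ∪ T2, hcy, union_subset hS1C hqC, ?_, ?_, ?_⟩
  · refine ⟨?_, fun e he => by rw [hvl, if_pos he]⟩
    ext f
    rw [Finsupp.mem_support_iff, hvl]
    by_cases hfD : f ∈ D <;> simp [hfD]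
  · intro y hy hyT
    rcases mem_union.1 hy with hy | hy
    · rcases hTV1 y hy hyT with rfl | rfl
      · exact haS
      · exact hbS
    · exact hq1 y hy hyT
  · intro y hy hyT
    rcases mem_union.1 hy with hy | hy
    · refine ⟨hrob y hy, A, hHul, hHP.2.2.2.2 hy, ?_⟩
      rw [hZt]
      intro z hz
      rw [mem_insert, mem_singleton] at hz
      rcases hz with rfl | rfl
      · exact haS
      · exact hbS
    · obtain ⟨h1, A', u', v', h2, h3, h4, h5⟩ := hq2 y hy hyT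
      refine ⟨h1, A', h2, h3, ?_⟩
      rw [h4]
      obtain ⟨p, hp, q, hq, _, hpq⟩ := hCT.tmem _ _ hcyc _ (mem_erase.1 h5).2
      intro z hz
      rw [mem_insert, mem_singleton] at hz
      rw [Sym2.eq_iff] at hpq
      rcases hpq with ⟨rfl, rfl⟩ | ⟨rfl, rfl⟩
      · rcases hz with rfl | rfl
        · exact hp
        · exact hq
      · rcases hz with rfl | rfl
        · exact hq
        · exact hp

end ErdPos
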