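import Pool.Agent.Helper2.EP.LIFT

/-! Module PROJ of MP_45fa85_co: cycles of `C` with value `1_D` give `D`-cycles of the torso. -/

namespace ErdPos

open Finset

section
variable {V : Type} [DecidableEq V] {E X : Type}

/-- the graph of all hulls -/
def projTG (G : SimpleGraph V) (F : Finset V → Prop) (C : Finset V) : SimpleGraph V where
  Adj u v := ∃ A S T, HP G F C A u v S T
  symm := by
    constructor
    rintro u v ⟨A, S, T, ⟨h1, h2, h3, h4, h5⟩⟩
    exact ⟨A, S, T, ⟨h1, by rw [h2, Finset.pair_comm], h3.symm, h4.symm, h5⟩⟩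
  loopless := by
    constructor
    rintro u ⟨A, S, T, ⟨_, _, h3, _, _⟩⟩
    exact h3 rfl

open Classical in
/-- the path version -/
lemma proj_path [Fintype V] (hPA : ST_PA) (hPEEL : ST_PEEL)
    {G : SimpleGraph V} {F : Finset V → Prop} {C : Finset V} (hC : Ctx G F C)
    (γ : Sym2 V → E →₀ ℤ) (n : ℕ) :
    ∀ (s t : V) (S : Finset V) (T : Finset (Sym2 V)), T.card = n → S ⊆ C →
    TVx G F C s → TVx G F C t → Pth G s t S T →
    ∃ S2 T2, ∃ l : Sym2 V → E →₀ ℤ, Pth (projTG G F C) s t S2 T2 ∧ S2 ⊆ S ∧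
      (∀ h ∈ T2, ∃ A u v S T, h = s(u, v) ∧ HP G F C A u v S T ∧ l h = vl γ T) ∧
      vl γ T = ∑ h ∈ T2, l h ∧
      (∀ x ∈ S, x = s ∨ ∃ A u v, s(u, v) ∈ T2 ∧ Hul G F C A ∧ Zt G C A = {u, v} ∧ x ∈ A) := by
  induction n using Nat.strong_induction_on with
  | _ n ih =>
    intro s t S T hT hSC hs ht hp
    have hPG := hPA V G
    have hPT := hPA V (projTG G F C)
    by_cases hst : s = t
    · subst hst
      obtain ⟨rfl, rfl⟩ := hPG.triv _ _ _ hp
      refine ⟨{s}, ∅, fun _ => 0, hPT.refl s, subset_rfl, fun h hh => absurd hh (notMem_empty _),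
        by simp [vl], fun x hx => Or.inl (mem_singleton.1 hx)⟩
    · obtain ⟨A, s', S1, T1, S2, T2, hHP, hq, hqA, h12, hSS, hdis, hTT, hs', hsS⟩ :=
        hPEEL V G F C hC s t S T hp hSC hst hs ht
      have hT1 : 1 ≤ T1.card := by
        have h1 := hPG.card _ _ _ _ hHP.2.2.2.1
        have h2 := hPG.ends _ _ _ _ hHP.2.2.2.1
        have h3 : ({s, s'} : Finset V) ⊆ S1 := by
          intro x hx
          rw [mem_insert, mem_singleton] at hx
          rcases hx with rfl | rfl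
          · exact h2.1
          · exact h2.2
        have h4 := Finset.card_le_card h3
        rw [Finset.card_pair hHP.2.2.1] at h4
        omega
      have hT2 : T2.card < n := by
        rw [← hT, ← hTT, Finset.card_union_of_disjoint hdis]
        omega
      have hS2 : S2 ⊆ S := by rw [← hSS]; exact subset_union_right
      obtain ⟨S3, T3, l, hr, hrS, hrl, hrv, hrx⟩ := ih T2.card hT2 s' t S2 T2 rfl
        (hS2.trans hSC) hs' ht hq
      have hadj : (projTG G F C).Adj s s' := ⟨A, S1, T1, hHP⟩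
      have hsS3 : s ∉ S3 := fun h => hsS (hrS h)
      have hint : ({s, s'} : Finset V) ∩ S3 ⊆ {s'} := by
        intro x hx
        rw [mem_inter, mem_insert, mem_singleton] at hx
        rcases hx.1 with rfl | rfl
        · exact absurd hx.2 hsS3
        · exact mem_singleton_self _
      obtain ⟨hcat, hdis2⟩ := hPT.concat s s' t {s, s'} {s(s, s')} S3 T3 (hPT.edge s s' hadj) hr hint
      have hnot : s(s, s') ∉ T3 := by
        rw [Finset.disjoint_singleton_left] at hdis2
        exact hdis2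
      refine ⟨{s, s'} ∪ S3, {s(s, s')} ∪ T3, fun h => if h = s(s, s') then vl γ T1 else l h, hcat,
        ?_, ?_, ?_, ?_⟩
      · rw [← hSS]
        refine union_subset ?_ (hrS.trans subset_union_right)
        intro x hx
        rw [mem_insert, mem_singleton] at hx
        have h2 := hPG.ends _ _ _ _ hHP.2.2.2.1
        rcases hx with rfl | rfl
        · exact mem_union_left _ h2.1
        · exact mem_union_left _ h2.2
      · intro h hh
        rw [mem_union, mem_singleton] at hh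
        rcases hh with rfl | hh
        · exact ⟨A, s, s', S1, T1, rfl, hHP, by simp⟩
        · have hne : h ≠ s(s, s') := by
            rintro rfl
            exact hnot hh
          obtain ⟨A', u, v, S', T', h1, h2, h3⟩ := hrl h hh
          exact ⟨A', u, v, S', T', h1, h2, by simp only [if_neg hne]; exact h3⟩
      · rw [← hTT]
        have h1 : vl γ (T1 ∪ T2) = vl γ T1 + vl γ T2 := by
          unfold vl
          rw [Finset.sum_union hdis]
        rw [h1, Finset.sum_union hdis2, Finset.sum_singleton, if_pos rfl, hrv]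
        congr 1
        refine Finset.sum_congr rfl (fun h hh => ?_)
        rw [if_neg]
        rintro rfl
        exact hnot hh
      · intro x hx
        rw [← hSS, mem_union] at hx
        have hA : ∃ A u v, s(u, v) ∈ ({s(s, s')} ∪ T3 : Finset (Sym2 V)) ∧ Hul G F C A ∧
            Zt G C A = {u, v} ∧ s' ∈ A ∧ ∀ x ∈ S1, x ∈ A :=
          ⟨A, s, s', mem_union_left _ (mem_singleton_self _), hHP.1, hHP.2.1,
            hHP.2.2.2.2 (hPG.ends _ _ _ _ hHP.2.2.2.1).2, fun x hx => hHP.2.2.2.2 hx⟩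
        rcases hx with hx | hx
        · obtain ⟨A, u, v, h1, h2, h3, _, h5⟩ := hA
          exact Or.inr ⟨A, u, v, h1, h2, h3, h5 x hx⟩
        · rcases hrx x hx with rfl | ⟨A', u, v, h1, h2, h3, h4⟩
          · obtain ⟨A, u, v, h1, h2, h3, h4, _⟩ := hA
            exact Or.inr ⟨A, u, v, h1, h2, h3, h4⟩
          · exact Or.inr ⟨A', u, v, mem_union_right _ h1, h2, h3, h4⟩

end

theorem st_PROJ (hPA : ST_PA) (hCA : ST_CA) (hHUL : ST_HUL) (hPEEL : ST_PEEL)
    (hCPEEL : ST_CPEEL) : ST_PROJ := by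
  classical
  intro V _ _ E X G γ inc 𝒟 C hS hC D hD S T hcyc hSC hInd
  have hPG := hPA V G
  have hCG := hCA V G
  have hPT := hPA V (projTG G (FA G γ inc 𝒟) C)
  have hCT := hCA V (projTG G (FA G γ inc 𝒟) C)
  have hGC := hC.memR S T hcyc (Or.inr ⟨D, hD, hInd⟩) hSC
  obtain ⟨_, _, hrob, hnoh⟩ := hGC
  obtain ⟨hc3, hcT⟩ := hCG.card _ _ hcyc
  have hTne : T.Nonempty := by
    rw [← Finset.card_pos]; omega
  obtain ⟨e, he⟩ := hTne
  obtain ⟨a, haS, b, hbS, hadj, rfl⟩ := hCG.tmem _ _ hcyc e he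
  have hul := ((hHUL V G _ C hC.ctx).1 a b (hrob a haS) (hrob b hbS) hadj).1
  obtain ⟨z, hzS, hzA⟩ := Finset.not_subset.1 (hnoh _ hul)
  obtain ⟨u, v, S1, T1, S2, T2, hHP, heT1, hq, hqA, hzS2, h12, hSS, hdis, hTT⟩ :=
    hCPEEL V G _ C hC.ctx S T a b z hcyc hSC hrob he hzS hzA
  set A := cl G (FA G γ inc 𝒟) C 5 {a, b} with hAdef
  have hZt := hHP.2.1
  have huv := hHP.2.2.1
  have huTV : TVx G (FA G γ inc 𝒟) C u := ⟨A, hul, by rw [hZt]; simp⟩
  have hvTV : TVx G (FA G γ inc 𝒟) C v := ⟨A, hul, by rw [hZt]; simp⟩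
  have hS2 : S2 ⊆ S := by rw [← hSS]; exact subset_union_right
  obtain ⟨S3, T3, l, hr, hrS, hrl, hrv, hrx⟩ := proj_path hPA hPEEL hC.ctx γ _ u v S2 T2 rfl
    (hS2.trans hSC) huTV hvTV hq
  have hHUL2 := (hHUL V G _ C hC.ctx).2
  -- the pair uv is not in T3 alone
  have hne : ({s(u, v)} : Finset (Sym2 V)) ≠ T3 := by
    rintro rfl
    rcases hrx z hzS2 with rfl | ⟨A', u', v', h1, h2, h3, h4⟩
    · apply hzA
      exact (hHUL2 A hul).2.2.2.2.2.1 (by rw [hZt]; simp)
    · rw [mem_singleton] at h1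
      have h5 : Zt G C A' = Zt G C A := by
        rw [h3, hZt, lift_pair_of_sym2 h1]
      have hu1 : u ∈ Zt G C A := by rw [hZt]; simp
      have hv1 : v ∈ Zt G C A := by rw [hZt]; simp
      have g1 := (hHUL2 A hul).2.2.2.2.2.1
      have g2 := (hHUL2 A' h2).2.2.2.2.2.1
      have ru := (hHUL2 A hul).2.2.2.2.2.2.1 u hu1
      have rv := (hHUL2 A hul).2.2.2.2.2.2.1 v hv1
      have e1 := (hHUL2 A hul).2.2.2.2.2.2.2.1 u v ru rv huv (g1 hu1) (g1 hv1)
      have e2 := (hHUL2 A' h2).2.2.2.2.2.2.2.1 u v ru rv huv (g2 (h5 ▸ hu1)) (g2 (h5 ▸ hv1))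
      apply hzA
      rw [← e1, e2]
      exact h4
  have hadjT : (projTG G (FA G γ inc 𝒟) C).Adj u v := ⟨A, S1, T1, hHP⟩
  obtain ⟨hcy, hdis2⟩ := hCT.mk2 u v {u, v} {s(u, v)} S3 T3 (hPT.edge u v hadjT) hr huv
    inter_subset_left hne
  have hnot : s(u, v) ∉ T3 := by
    rw [Finset.disjoint_singleton_left] at hdis2
    exact hdis2
  set l' : Sym2 V → E →₀ ℤ := fun h => if h = s(u, v) then vl γ T1 else l h with hl'
  have hl'T : ∀ h ∈ ({s(u, v)} ∪ T3 : Finset (Sym2 V)), ∃ A u v S T, h = s(u, v) ∧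
      HP G (FA G γ inc 𝒟) C A u v S T ∧ l' h = vl γ T := by
    intro h hh
    rw [mem_union, mem_singleton] at hh
    rcases hh with rfl | hh
    · exact ⟨A, u, v, S1, T1, rfl, hHP, by simp [hl']⟩
    · have hne : h ≠ s(u, v) := by
        rintro rfl
        exact hnot hh
      obtain ⟨A', u, v, S', T', h1, h2, h3⟩ := hrl h hh
      exact ⟨A', u, v, S', T', h1, h2, by simp only [hl', if_neg hne]; exact h3⟩
  have htot : vl γ T = ∑ h ∈ ({s(u, v)} ∪ T3 : Finset (Sym2 V)), l' h := by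
    rw [← hTT]
    have h1 : vl γ (T1 ∪ T2) = vl γ T1 + vl γ T2 := by
      unfold vl
      rw [Finset.sum_union hdis]
    rw [h1, Finset.sum_union hdis2, Finset.sum_singleton, hrv]
    simp only [hl', if_pos]
    congr 1
    refine Finset.sum_congr rfl (fun h hh => ?_)
    rw [if_neg]
    rintro rfl
    exact hnot hh
  have h01 : ∀ h ∈ ({s(u, v)} ∪ T3 : Finset (Sym2 V)), ∀ f, l' h f = 0 ∨ l' h f = 1 := by
    intro h hh f
    obtain ⟨A', u', v', S', T', h1, h2, h3⟩ := hl'T h hh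
    rw [h3]
    exact hC.h01 _ _ _ _ _ h2 f
  have hcar : ∀ h ∈ ({s(u, v)} ∪ T3 : Finset (Sym2 V)), ∀ f, l' h f = 1 →
      f ∈ carH G (FA G γ inc 𝒟) C γ h := by
    intro h hh f hf
    obtain ⟨A', u', v', S', T', h1, h2, h3⟩ := hl'T h hh
    rw [h3] at hf
    exact ⟨A', u', v', S', T', h2, h1, hf⟩
  have htot' : ∀ f, vl γ T f = ∑ h ∈ ({s(u, v)} ∪ T3 : Finset (Sym2 V)), l' h f := by
    intro f
    rw [htot, Finsupp.finsetSum_apply]
  have hvT : ∀ f, vl γ T f = if f ∈ D then 1 else 0 := by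
    intro f
    by_cases hf : f ∈ D
    · rw [if_pos hf, hInd.2 f hf]
    · rw [if_neg hf]
      rw [← hInd.1, Finsupp.mem_support_iff] at hf
      simpa using hf
  have hexi : ∀ f ∈ D, ∃ h ∈ ({s(u, v)} ∪ T3 : Finset (Sym2 V)), l' h f = 1 := by
    intro f hf
    by_contra hno
    push Not at hno
    have h1 : ∑ h ∈ ({s(u, v)} ∪ T3 : Finset (Sym2 V)), l' h f = 0 :=
      Finset.sum_eq_zero (fun h hh => (h01 h hh f).resolve_right (hno h hh))
    rw [← htot' f, hvT f, if_pos hf] at h1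
    exact absurd h1 one_ne_zero
  refine ⟨{u, v} ∪ S3, {s(u, v)} ∪ T3, ?_, ?_, ?_⟩
  · refine union_subset ?_ (hrS.trans hS2)
    intro x hx
    rw [mem_insert, mem_singleton] at hx
    have h2 := hPG.ends _ _ _ _ hq
    rcases hx with rfl | rfl
    · exact hS2 h2.1
    · exact hS2 h2.2
  · refine hCT.transfer _ _ _ hcy (fun e he => ?_)
    obtain ⟨A', u', v', S', T', rfl, h2, h3⟩ := hl'T e he
    rw [SimpleGraph.mem_edgeSet]
    refine ⟨A', S', T', h2, fun f => ?_⟩
    rw [← h3]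
    rcases h01 _ he f with h0 | h0
    · rw [h0, if_neg]
      rintro ⟨hfD, hfc⟩
      obtain ⟨h', hh', hl1⟩ := hexi f hfD
      have := lift_car_disj hC hfc (hcar h' hh' f hl1)
      rw [← this, h0] at hl1
      exact absurd hl1 zero_ne_one
    · have hfD : f ∈ D := by
        by_contra hfD
        have h1 := hvT f
        rw [if_neg hfD, htot' f] at h1
        have h2 := Finset.single_le_sum (f := fun h => l' h f) (fun h hh => by
          rcases h01 h hh f with h | h <;> simp only [h] <;> norm_num) he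
        rw [h1, h0] at h2
        exact absurd h2 (by norm_num)
      rw [h0, if_pos ⟨hfD, hcar _ he f h0⟩]
  · intro f hf
    obtain ⟨h, hh, hl1⟩ := hexi f hf
    exact ⟨h, hh, hcar h hh f hl1⟩

end ErdPos
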